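import Pool.Agent.Work.MP_db9399_nc_helper46.SPA

/-!
# Block SPB: few odd rounds
-/

set_option autoImplicit false

namespace Pool.Agent.Work.MP_db9399_nc.helper46

open Finset Classical
open Pool.Agent.Work.MP_db9399_all (nb)
open Pool.Agent.Work.MP_db9399_nc

universe u

/-- distinct representatives, greedy -/
theorem greedy_sdr {V : Type u} [Nonempty V] (A : ℕ → Finset V) (n : ℕ) (O : Finset ℕ) :
    (∀ b ∈ O, n ≤ (A b).card) → O.card ≤ n →
    ∃ μ : ℕ → V, (∀ b ∈ O, μ b ∈ A b) ∧ Set.InjOn μ (O : Set ℕ) := by
  induction O using Finset.induction_on with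
  | empty =>
    intro _ _
    obtain ⟨v⟩ := ‹Nonempty V›
    exact ⟨fun _ => v, by simp, by simp⟩
  | insert b O hb ih =>
    intro hA hn
    rw [Finset.card_insert_of_notMem hb] at hn
    obtain ⟨μ, hμ, hinj⟩ := ih (fun b' hb' => hA b' (Finset.mem_insert_of_mem hb')) (by omega)
    have h1 : (O.image μ).card < (A b).card := by
      have := hA b (Finset.mem_insert_self b O)
      have h2 : (O.image μ).card ≤ O.card := Finset.card_image_le
      omega
    obtain ⟨v, hvA, hvO⟩ := Finset.exists_mem_notMem_of_card_lt_card h1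
    refine ⟨fun b' => if b' = b then v else μ b', ?_, ?_⟩
    · intro b' hb'
      rw [Finset.mem_insert] at hb'
      by_cases h : b' = b
      · simp only [h, if_true]; exact hvA
      · simp only [h, if_false]
        exact hμ b' (hb'.resolve_left h)
    · intro b1 h1 b2 h2 h
      rw [Finset.mem_coe, Finset.mem_insert] at h1 h2
      by_cases e1 : b1 = b
      · by_cases e2 : b2 = b
        · rw [e1, e2]
        · exfalso
          simp only [e1, if_true, e2, if_false] at h
          apply hvO
          rw [h]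
          exact Finset.mem_image_of_mem μ (h2.resolve_left e2)
      · by_cases e2 : b2 = b
        · exfalso
          simp only [e1, if_false, e2, if_true] at h
          apply hvO
          rw [← h]
          exact Finset.mem_image_of_mem μ (h1.resolve_left e1)
        · simp only [e1, if_false, e2] at h
          exact hinj (h1.resolve_left e1) (h2.resolve_left e2) h

theorem stmt_SPB (hB : Stmt_ABSB.{u}) (hP : Stmt_SPOT.{u}) : Stmt_SPB.{u} := by
  intro V _ G d y z c F E hm γ hS hy hsz hz hnum
  set O : Finset ℕ := E.filter (fun b => Odd (univ \ dirty c F b).card) with hO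
  have hOE : O ⊆ E := Finset.filter_subset _ _
  have hOc : O.card ≤ E.card := Finset.card_le_card hOE
  have hE0 : E.Nonempty := by
    rw [← Finset.card_pos]; omega
  obtain ⟨b0, hb0⟩ := hE0
  haveI : Nonempty V := by
    rw [← Fintype.card_pos_iff]
    have := hsz b0 hb0
    omega
  let A : ℕ → Finset V := fun b => univ.filter (fun v => v ∉ dirty c F b ∧ c v ∉ E ∧ hm v = v)
  have hA : ∀ b ∈ O, E.card ≤ (A b).card := by
    intro b hb
    have h1 : (univ : Finset V) ⊆ A b ∪ (dirty c F b ∪
        (univ.filter (fun v => c v ∈ E) ∪ univ.filter (fun v => hm v ≠ v))) := by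
      intro v _
      simp only [A, Finset.mem_union, Finset.mem_filter, Finset.mem_univ, true_and]
      by_cases h1 : v ∈ dirty c F b
      · tauto
      · by_cases h2 : c v ∈ E
        · tauto
        · by_cases h3 : hm v = v
          · tauto
          · tauto
    have h2 := Finset.card_le_card h1
    rw [Finset.card_univ] at h2
    have h3 := Finset.card_union_le (A b) (dirty c F b ∪
        (univ.filter (fun v => c v ∈ E) ∪ univ.filter (fun v => hm v ≠ v)))
    have h4 := Finset.card_union_le (dirty c F b)
      (univ.filter (fun v => c v ∈ E) ∪ univ.filter (fun v => hm v ≠ v))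
    have h5 := Finset.card_union_le (univ.filter (fun v => c v ∈ E))
      (univ.filter (fun v => hm v ≠ v))
    have h6 := hS.hcard
    have h7 := Spot.cE hS
    have h8 := hsz b (hOE hb)
    omega
  obtain ⟨μ, hμ, hinj⟩ := greedy_sdr A E.card O hA hOc
  have hμ' : ∀ b ∈ O, μ b ∉ dirty c F b ∧ c (μ b) ∉ E ∧ hm (μ b) = μ b := by
    intro b hb
    exact (Finset.mem_filter.mp (hμ b hb)).2
  let Z : V → Finset ℕ := fun v => F v ∪ O.filter (fun b => μ b = v)
  have hZ : ∀ v ∈ O.image μ, (Z v).card ≤ z := by
    intro v _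
    have h1 : (O.filter (fun b => μ b = v)).card ≤ 1 := by
      rw [Finset.card_le_one]
      intro b hb b' hb'
      rw [Finset.mem_filter] at hb hb'
      exact hinj hb.1 hb'.1 (hb.2.trans hb'.2.symm)
    have h2 := Finset.card_union_le (F v) (O.filter (fun b => μ b = v))
    have h3 := hz v
    show (F v ∪ O.filter (fun b => μ b = v)).card ≤ z
    omega
  have hWc : (O.image μ).card ≤ O.card := Finset.card_image_le
  obtain ⟨K, hK, hKW, habs⟩ := hB G (O.image μ) E Z z hZ (by omega)
  have hWall : ∀ v ∈ O.image μ, c v ∉ E ∧ hm v = v := by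
    intro v hv
    obtain ⟨b, hb, rfl⟩ := Finset.mem_image.mp hv
    exact (hμ' b hb).2
  refine hP G d y c F E hm γ (O.image μ) μ K hS hy hsz hK ?_ hWall (hWc.trans hOc) habs ?_ ?_
  · intro b hb v hv
    obtain ⟨h1, h2⟩ := hKW b hb v hv
    refine ⟨h1, ?_⟩
    intro hd
    rw [mem_dirty] at hd
    rcases hd with hd | hd
    · exact (hWall v h1).1 (hd ▸ hb)
    · exact h2 (Finset.mem_union_left _ hd)
  · intro b hb ho
    have hbO : b ∈ O := Finset.mem_filter.mpr ⟨hb, ho⟩
    refine ⟨Finset.mem_image_of_mem μ hbO, (hμ' b hbO).1, ?_⟩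
    by_contra hne
    exact (hKW b hb (μ b) hne).2
      (Finset.mem_union_right _ (Finset.mem_filter.mpr ⟨hbO, rfl⟩))
  · intro b hb b' hb' ho ho' h
    exact hinj (Finset.mem_filter.mpr ⟨hb, ho⟩) (Finset.mem_filter.mpr ⟨hb', ho'⟩) h

end Pool.Agent.Work.MP_db9399_nc.helper46
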