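import Pool.Agent.Work.MP_db9399_nc.Base

/-!
# Block SPOT: rounds with misses in `W`, everything inside `W` absorbed
-/

set_option autoImplicit false

namespace Pool.Agent.Work.MP_db9399_nc.helper46

open Finset Classical
open Pool.Agent.Work.MP_db9399_all (nb)
open Pool.Agent.Work.MP_db9399_nc

universe u

theorem stmt_SPOT (hC : Stmt_COMP.{u}) (hL : Stmt_CLEAN.{u}) : Stmt_SPOT.{u} := by
  intro V _ G d y c F E hm γ W μ K hS hy hsz hK hKW hW hWE habs hodd hμ
  let X : ℕ → Finset V := fun b =>
    dirty c F b ∪ (if Odd (univ \ dirty c F b).card then {μ b} else ∅)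
  let K' : ℕ → V → V := fun b v => if b = γ ∧ hm v ≠ v then hm v else K b v
  let L : SimpleGraph V :=
    { Adj := fun v w => G.Adj v w ∧ ((v ∈ W ∧ w ∈ W) ∨ hm v = w)
      symm := ⟨fun v w h => ⟨h.1.symm, by
        rcases h.2 with h2 | h2
        · exact Or.inl ⟨h2.2, h2.1⟩
        · right
          rw [← h2]
          exact hS.hinv v⟩⟩
      loopless := ⟨fun v h => G.loopless.irrefl v h.1⟩ }
  have hmW : ∀ v, hm v ≠ v → v ∉ W := fun v hv hw => hv (hW v hw).2
  have hKid : ∀ b ∈ E, ∀ v, v ∉ W → K b v = v := by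
    intro b hb v hv
    by_contra hne
    exact hv (hKW b hb v hne).1
  have hK1 : ∀ b v, b = γ → hm v ≠ v → K' b v = hm v := by
    intro b v h1 h2
    simp only [K']
    rw [if_pos ⟨h1, h2⟩]
  have hK2 : ∀ b v, ¬ (b = γ ∧ hm v ≠ v) → K' b v = K b v := by
    intro b v h1
    simp only [K']
    rw [if_neg h1]
  have hK3 : ∀ b v, v ∈ W → K' b v = K b v := by
    intro b v hv
    exact hK2 b v (fun h => hmW v h.2 hv)
  have hKKW : ∀ b ∈ E, ∀ v, K b v ≠ v → K b v ∈ W := by
    intro b hb v hv
    refine (hKW b hb (K b v) ?_).1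
    rw [hK.inv b hb v]
    exact Ne.symm hv
  -- the matchings with the edge of `H`
  have hM' : Mts G E K' := by
    refine ⟨?_, ?_, ?_⟩
    · intro b hb v
      by_cases h : b = γ ∧ hm v ≠ v
      · rw [hK1 b v h.1 h.2, hK1 b (hm v) h.1, hS.hinv v]
        rw [hS.hinv v]; exact Ne.symm h.2
      · rw [hK2 b v h]
        by_cases hv : K b v = v
        · rw [hv, hK2 b v h, hv]
        · rw [hK3 b _ (hKKW b hb v hv), hK.inv b hb v]
    · intro b hb v hv
      by_cases h : b = γ ∧ hm v ≠ v
      · rw [hK1 b v h.1 h.2]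
        exact (hS.hadj v h.2).1
      · rw [hK2 b v h] at hv ⊢
        exact hK.adj b hb v hv
    · intro b hb b' hb' hbb v hv
      by_cases h : b = γ ∧ hm v ≠ v
      · rw [hK1 b v h.1 h.2]
        have h' : ¬ (b' = γ ∧ hm v ≠ v) := by
          rintro ⟨h1, _⟩
          exact hbb (h.1.trans h1.symm)
        rw [hK2 b' v h', hKid b' hb' v (hmW v h.2)]
        exact h.2
      · rw [hK2 b v h] at hv ⊢
        have hvW : v ∈ W := (hKW b hb v hv).1
        rw [hK3 b' v hvW]
        exact hK.dis b hb b' hb' hbb v hv
  have hXd : ∀ b v, v ∈ dirty c F b → v ∈ X b := fun b v h => Finset.mem_union_left _ h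
  have hKL : ∀ b ∈ E, ∀ v, K' b v ≠ v → L.Adj v (K' b v) ∧ v ∉ X b := by
    intro b hb v hv
    by_cases h : b = γ ∧ hm v ≠ v
    · have h1 := hS.hadj v h.2
      rw [hK1 b v h.1 h.2]
      refine ⟨⟨h1.1, Or.inr rfl⟩, ?_⟩
      intro hx
      rw [Finset.mem_union] at hx
      rcases hx with hx | hx
      · rw [mem_dirty, h.1] at hx
        rcases hx with hx | hx
        · exact h1.2.2.1 hx.symm
        · exact h1.2.2.2 hx
      · split_ifs at hx with ho
        · rw [Finset.mem_singleton] at hx
          have := (hodd b hb ho).1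
          rw [← hx] at this
          exact hmW v h.2 this
        · simp at hx
    · rw [hK2 b v h] at hv ⊢
      have h1 := hKW b hb v hv
      refine ⟨⟨hK.adj b hb v hv, Or.inl ⟨h1.1, hKKW b hb v hv⟩⟩, ?_⟩
      intro hx
      rw [Finset.mem_union] at hx
      rcases hx with hx | hx
      · exact h1.2 hx
      · split_ifs at hx with ho
        · rw [Finset.mem_singleton] at hx
          apply hv
          rw [hx]
          exact (hodd b hb ho).2.2
        · simp at hx
  have hev : ∀ b ∈ E, Even (univ \ X b).card := by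
    intro b hb
    by_cases ho : Odd (univ \ dirty c F b).card
    · have h1 : univ \ X b = (univ \ dirty c F b).erase (μ b) := by
        ext v
        simp only [X, if_pos ho, Finset.mem_sdiff, Finset.mem_univ, true_and, Finset.mem_union,
          Finset.mem_singleton, Finset.mem_erase]
        tauto
      have h2 : μ b ∈ univ \ dirty c F b := by
        rw [Finset.mem_sdiff]
        exact ⟨Finset.mem_univ _, (hodd b hb ho).2.1⟩
      rw [h1, Finset.card_erase_of_mem h2]
      obtain ⟨r, hr⟩ := ho
      rw [hr]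
      exact ⟨r, by omega⟩
    · have h1 : univ \ X b = univ \ dirty c F b := by
        simp only [X, if_neg ho, Finset.union_empty]
      rw [h1]
      exact Nat.not_odd_iff_even.mp ho
  have hnbL : ∀ v, (nb L v).card ≤ E.card + 1 := by
    intro v
    have h1 : nb L v ⊆ insert (hm v) W := by
      intro w hw
      have hw' : L.Adj v w := mem_nb.mp hw
      rw [Finset.mem_insert]
      rcases hw'.2 with h | h
      · exact Or.inr h.2
      · exact Or.inl h.symm
    refine (Finset.card_le_card h1).trans ((Finset.card_insert_le _ _).trans ?_)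
    omega
  have hXcard : ∀ b, (X b).card ≤ (dirty c F b).card + 1 := by
    intro b
    refine (Finset.card_union_le _ _).trans ?_
    split_ifs <;> simp
  have hKcard : ∀ b ∈ E, (univ.filter (fun v => K' b v ≠ v)).card ≤ E.card + 2 := by
    intro b hb
    have h1 : univ.filter (fun v => K' b v ≠ v) ⊆ W ∪ univ.filter (fun v => hm v ≠ v) := by
      intro v hv
      rw [Finset.mem_filter] at hv
      rw [Finset.mem_union, Finset.mem_filter]
      by_cases h : b = γ ∧ hm v ≠ v
      · exact Or.inr ⟨Finset.mem_univ _, h.2⟩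
      · rw [hK2 b v h] at hv
        exact Or.inl (hKW b hb v hv.2).1
    have h2 := Finset.card_le_card h1
    have h3 := Finset.card_union_le W (univ.filter (fun v => hm v ≠ v))
    have h4 := hS.hcard
    omega
  obtain ⟨M, hM, hMX, hMK, hML⟩ := hC G L E (y + 2 * E.card + 1) X K' hM' hKL hev
    (by
      intro v
      have h1 := hy v
      have h2 := hnbL v
      omega)
    (by
      intro b hb
      have h1 := hsz b hb
      have h2 := hXcard b
      have h3 := hKcard b hb
      omega)
  -- the rest graph
  let R : SimpleGraph V :=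
    { Adj := fun v w => G.Adj v w ∧ ∀ b ∈ E, M b v ≠ w
      symm := ⟨fun v w h => ⟨h.1.symm, fun b hb he => h.2 b hb (by
        rw [← he]; exact hM.inv b hb w)⟩⟩
      loopless := ⟨fun v h => G.loopless.irrefl v h.1⟩ }
  have huniq : ∀ b ∈ E, ∀ b' ∈ E, ∀ v w, v ≠ w → M b v = w → M b' v = w → b = b' := by
    intro b hb b' hb' v w hvw h1 h2
    by_contra hne
    refine hM.dis b hb b' hb' hne v ?_ (h1.trans h2.symm)
    rw [h1]; exact Ne.symm hvw
  have hdegR : ∀ v, (nb R v).card + E.card ≤
      (nb G v).card + (F v).card + (if c v ∈ E then 1 else 0) + (if v ∈ W then 1 else 0) := by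
    intro v
    have h1 : (nb R v).card + ((E.filter (fun b => M b v ≠ v)).image (fun b => M b v)).card ≤
        (nb G v).card := by
      have hdis : Disjoint (nb R v) ((E.filter (fun b => M b v ≠ v)).image (fun b => M b v)) := by
        rw [Finset.disjoint_left]
        intro w hw hw'
        obtain ⟨b, hb, hbw⟩ := Finset.mem_image.mp hw'
        have hwR : R.Adj v w := mem_nb.mp hw
        exact hwR.2 b (Finset.mem_filter.mp hb).1 hbw
      rw [← Finset.card_union_of_disjoint hdis]
      apply Finset.card_le_card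
      intro w hw
      rw [Finset.mem_union] at hw
      rcases hw with hw | hw
      · have hwR : R.Adj v w := mem_nb.mp hw
        exact mem_nb.mpr hwR.1
      · obtain ⟨b, hb, hbw⟩ := Finset.mem_image.mp hw
        rw [Finset.mem_filter] at hb
        have := hM.adj b hb.1 v hb.2
        rw [← hbw]
        exact mem_nb.mpr this
    have h2 : ((E.filter (fun b => M b v ≠ v)).image (fun b => M b v)).card =
        (E.filter (fun b => M b v ≠ v)).card := by
      apply Finset.card_image_of_injOn
      intro b hb b' hb' hbb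
      rw [Finset.mem_coe, Finset.mem_filter] at hb hb'
      exact huniq b hb.1 b' hb'.1 v (M b v) (Ne.symm hb.2) rfl hbb.symm
    have h3 := Finset.card_filter_add_card_filter_not (s := E) (fun b => M b v ≠ v)
    have h4 : (E.filter (fun b => ¬ (M b v ≠ v))).card ≤
        (F v).card + (if c v ∈ E then 1 else 0) + (if v ∈ W then 1 else 0) := by
      have h5 : E.filter (fun b => ¬ (M b v ≠ v)) ⊆ (F v ∪ (if c v ∈ E then {c v} else ∅)) ∪
          E.filter (fun b => Odd (univ \ dirty c F b).card ∧ μ b = v) := by
        intro b hb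
        rw [Finset.mem_filter, not_not] at hb
        have hx := (hMX b hb.1 v).mp hb.2
        rw [Finset.mem_union] at hx
        rw [Finset.mem_union, Finset.mem_union, Finset.mem_filter]
        rcases hx with hx | hx
        · left
          rw [mem_dirty] at hx
          rcases hx with hx | hx
          · right
            rw [hx, if_pos hb.1, Finset.mem_singleton]
          · left; exact hx
        · right
          split_ifs at hx with ho
          · rw [Finset.mem_singleton] at hx
            exact ⟨hb.1, ho, hx.symm⟩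
          · simp at hx
      have h6 : (E.filter (fun b => Odd (univ \ dirty c F b).card ∧ μ b = v)).card ≤
          (if v ∈ W then 1 else 0) := by
        split_ifs with hv
        · rw [Finset.card_le_one]
          intro b hb b' hb'
          rw [Finset.mem_filter] at hb hb'
          exact hμ b hb.1 b' hb'.1 hb.2.1 hb'.2.1 (hb.2.2.trans hb'.2.2.symm)
        · rw [Nat.le_zero, Finset.card_eq_zero, Finset.filter_eq_empty_iff]
          rintro b hb ⟨ho, he⟩
          apply hv
          rw [← he]
          exact (hodd b hb ho).1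
      have h7 := Finset.card_le_card h5
      have h8 := Finset.card_union_le (F v ∪ (if c v ∈ E then {c v} else ∅))
        (E.filter (fun b => Odd (univ \ dirty c F b).card ∧ μ b = v))
      have h9 := Finset.card_union_le (F v) (if c v ∈ E then {c v} else ∅)
      have h10 : (if c v ∈ E then ({c v} : Finset ℕ) else ∅).card = (if c v ∈ E then 1 else 0) := by
        split_ifs <;> simp
      omega
    omega
  have hCl : (range (d + 2) \ E).card + E.card = d + 2 := by
    rw [Finset.card_sdiff_add_card_eq_card]
    · simp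
    · intro b hb
      rw [Finset.mem_range]
      exact hS.Elt b hb
  have hmemCl : ∀ v, c v ∈ range (d + 2) \ E ↔ c v ∉ E := by
    intro v
    rw [Finset.mem_sdiff, Finset.mem_range]
    exact ⟨fun h => h.2, fun h => ⟨hS.clt v, h⟩⟩
  have hdegR2 : ∀ v, (nb R v).card + (if c v ∈ range (d + 2) \ E then 1 else 0) + 1 ≤
      (range (d + 2) \ E).card + (if v ∈ W then 1 else 0) := by
    intro v
    have h1 := hdegR v
    have h2 := hS.deg v
    by_cases hv : c v ∈ E
    · rw [if_pos hv] at h1
      rw [if_neg (fun h => (hmemCl v).mp h hv)]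
      omega
    · rw [if_neg hv] at h1
      rw [if_pos ((hmemCl v).mpr hv)]
      omega
  obtain ⟨t', ht', htc'⟩ := hL R (range (d + 2) \ E) c W
    (by
      intro v w hvw hcc h
      exact (hmemCl v).mp h (hS.crep v w hvw hcc))
    (by
      intro v hv
      have := hdegR2 v
      rw [if_neg hv] at this
      omega)
    (by
      intro v hv
      have := hdegR2 v
      rw [if_pos hv] at this
      omega)
    (by
      intro v hv w hw hR
      obtain ⟨b, hb, hbw⟩ := habs v hv w hw hR.1
      have hne : K' b v ≠ v := by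
        rw [hK3 b v hv, hbw]
        exact hR.1.ne'
      refine hR.2 b hb ?_
      rw [hMK b hb v hne, hK3 b v hv, hbw])
    (by
      obtain ⟨a, h1, h2, h3⟩ := hS.fr
      refine ⟨a, ?_, h3⟩
      rw [Finset.mem_sdiff, Finset.mem_range]
      exact ⟨h1, h2⟩)
  -- the colouring
  let t : V → V → ℕ := fun v w =>
    if G.Adj v w then (if h : ∃ b ∈ E, M b v = w then h.choose else t' v w) else 0
  have ht1 : ∀ v w, G.Adj v w → ∀ b ∈ E, M b v = w → t v w = b := by
    intro v w hvw b hb hbw
    have hex : ∃ b ∈ E, M b v = w := ⟨b, hb, hbw⟩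
    simp only [t]
    rw [if_pos hvw, dif_pos hex]
    exact huniq _ hex.choose_spec.1 b hb v w hvw.ne hex.choose_spec.2 hbw
  have ht2 : ∀ v w, G.Adj v w → (∀ b ∈ E, M b v ≠ w) → t v w = t' v w := by
    intro v w hvw hno
    have hex : ¬ ∃ b ∈ E, M b v = w := by
      rintro ⟨b, hb, hbw⟩
      exact hno b hb hbw
    simp only [t]
    rw [if_pos hvw, dif_neg hex]
  have hcase : ∀ v w, G.Adj v w → (∃ b ∈ E, M b v = w ∧ t v w = b) ∨
      (R.Adj v w ∧ t v w = t' v w ∧ t v w ∉ E ∧ t v w < d + 2) := by
    intro v w hvw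
    by_cases hex : ∃ b ∈ E, M b v = w
    · obtain ⟨b, hb, hbw⟩ := hex
      exact Or.inl ⟨b, hb, hbw, ht1 v w hvw b hb hbw⟩
    · push Not at hex
      have hR : R.Adj v w := ⟨hvw, hex⟩
      have h1 := ht2 v w hvw hex
      have h2 := ht'.mem v w hR
      rw [Finset.mem_sdiff, Finset.mem_range] at h2
      rw [h1]
      exact Or.inr ⟨hR, rfl, h2.2, h2.1⟩
  have hnotX : ∀ b ∈ E, ∀ v w, v ≠ w → M b v = w → v ∉ X b := by
    intro b hb v w hvw h hx
    have := (hMX b hb v).mpr hx
    rw [this] at h
    exact hvw h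
  refine ⟨t, ?_, ?_, ?_, ?_, ?_, ?_⟩
  · intro v w
    by_cases hvw : G.Adj v w
    · by_cases hex : ∃ b ∈ E, M b v = w
      · obtain ⟨b, hb, hbw⟩ := hex
        rw [ht1 v w hvw b hb hbw, ht1 w v hvw.symm b hb (by rw [← hbw]; exact hM.inv b hb v)]
      · push Not at hex
        rw [ht2 v w hvw hex, ht2 w v hvw.symm, ht'.sym v w]
        intro b hb he
        exact hex b hb (by rw [← he]; exact hM.inv b hb w)
    · have hwv : ¬ G.Adj w v := fun h => hvw h.symm
      simp only [t]
      rw [if_neg hvw, if_neg hwv]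
  · intro v w hvw
    rcases hcase v w hvw with ⟨b, hb, _, h⟩ | ⟨_, _, _, h⟩
    · rw [h]; exact hS.Elt b hb
    · exact h
  · intro v w hvw
    rcases hcase v w hvw with ⟨b, hb, hbw, h⟩ | ⟨hR, h, _, _⟩
    · rw [h]
      intro he
      exact hnotX b hb v w hvw.ne hbw (hXd b v (mem_dirty.mpr (Or.inl he.symm)))
    · rw [h]; exact htc' v w hR
  · intro v w hvw
    rcases hcase v w hvw with ⟨b, hb, hbw, h⟩ | ⟨_, _, h, _⟩
    · rw [h]
      intro he
      exact hnotX b hb v w hvw.ne hbw (hXd b v (mem_dirty.mpr (Or.inr he)))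
    · exact fun he => h (hS.FE v he)
  · intro v w hw w' hw' hww
    have hw1 : G.Adj v w := mem_nb.mp hw
    have hw2 : G.Adj v w' := mem_nb.mp hw'
    rcases hcase v w hw1 with ⟨b, hb, hbw, h⟩ | ⟨hR, h, hE, _⟩
    · rcases hcase v w' hw2 with ⟨b', hb', hbw', h'⟩ | ⟨hR', h', hE', _⟩
      · have : b = b' := by rw [← h, ← h']; exact hww
        rw [← hbw, ← hbw', this]
      · exfalso
        apply hE'
        have : t v w' = b := by rw [← h]; exact hww.symm
        rw [this]; exact hb
    · rcases hcase v w' hw2 with ⟨b', hb', hbw', h'⟩ | ⟨hR', h', hE', _⟩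
      · exfalso
        apply hE
        have : t v w = b' := by rw [← h']; exact hww
        rw [this]; exact hb'
      · refine ht'.inj v (mem_nb.mpr hR) (mem_nb.mpr hR') ?_
        rw [← h, ← h']; exact hww
  · intro v hv
    have h1 := hS.hadj v hv
    have h2 : K' γ v = hm v := hK1 γ v rfl hv
    have h3 : M γ v = hm v := by
      rw [hMK γ h1.2.1 v (by rw [h2]; exact hv), h2]
    exact ht1 v (hm v) h1.1 γ h1.2.1 h3

end Pool.Agent.Work.MP_db9399_nc.helper46
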