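import Pool.Agent.Work.MP_db9399_co.Defs
import Pool.Agent.Work.MP_db9399_dn.CORE
import Pool.Agent.Work.MP_db9399_nc_helper1.GRS
import Pool.Agent.Work.MP_db9399_nc_helper1.MAIN
import Pool.Agent.Work.MP_db9399_nc_helper1.XREST
import Pool.Agent.Work.MP_db9399_nc_helper21.ABSB
import Pool.Agent.Work.MP_db9399_nc_helper21.COMP
import Pool.Agent.Work.MP_db9399_nc_helper21.PM
import Pool.Agent.Work.MP_db9399_nc_helper42.XKEEP
import Pool.Agent.Work.MP_db9399_nc_helper46.FINX
import Pool.Agent.Work.MP_db9399_nc_helper46.SPB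
import Pool.Agent.Work.MP_db9399_nc_helper46.SPOT
import Pool.Agent.Work.MP_db9399_nc_helper51.LOC
import Pool.Agent.Work.MP_db9399_nc_helper51.SP0
import Pool.Agent.Work.MP_db9399_nc_helper54.LSW
import Pool.Agent.Work.MP_db9399_nc_helper54.PLAN
import Pool.Agent.Work.MP_db9399_nc_helper59.OWN
import Pool.Agent.Work.MP_db9399_nc_helper59.VCOL
import Pool.Agent.Work.MP_db9399_nc_helper63.CLEAN
import Pool.Agent.Work.MP_db9399_nc_helper63.STAR
import Pool.Agent.Work.MP_db9399_nc_helper99.ABSA
import Pool.Agent.Work.MP_db9399_nc_helper99.CUT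
import Pool.Agent.Work.MP_db9399_nc_helper99.NE

/-!
# MP_db9399_co, Q1: total colourings of graphs partitioned into almost complete parts

Let `G` be a finite graph with maximum degree `Δ ≥ 10⁶` whose vertices are divided into parts
(`f v` is the number of the part of `v`) such that every vertex has at most `Δ / 10⁶` nonneighbours
in its own part and at most `Δ / 10⁶` neighbours outside its part. Then for every `k ≥ Δ + 2` and
every distance-3 matching `H` every total-`k`-colouring of `H` extends to a total-`k`-colouring of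
`G`. There is no condition on the sizes of the parts or on the minimum degree.
-/

namespace Pool.Agent.Work.MP_db9399_nc_helper46.Final

open _root_.MP_db9399_co
open Pool.Agent.Work.MP_db9399_nc

universe u

theorem clean : Stmt_CLEAN.{u} :=
  helper63.stmt_CLEAN Pool.Agent.Work.MP_db9399_dn.CORE.stmt_CORE helper63.stmt_STAR

theorem spot : Stmt_SPOT.{u} :=
  helper46.stmt_SPOT (helper21.stmt_COMP helper21.stmt_PM) clean

theorem loc : Stmt_LOC.{u} :=
  helper51.stmt_LOC (helper46.stmt_SPA helper99.stmt_ABSA spot)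
    (helper46.stmt_SPB helper21.stmt_ABSB spot) (helper51.stmt_SP0 clean)

theorem vcol : Stmt_VCOL.{u} :=
  helper59.stmt_VCOL helper54.stmt_PLAN helper99.stmt_NE helper54.stmt_LSW

theorem xkeep : Stmt_XKEEP.{u} :=
  helper42.stmt_XKEEP helper99.stmt_CUT helper59.stmt_OWN helper1.stmt_GRS

theorem main : Stmt_MAIN.{u} :=
  helper1.stmt_MAIN vcol xkeep (helper1.stmt_XREST helper1.stmt_GRS) loc

/-- Q1 for graphs of maximum degree at least `10⁶` partitioned into almost complete parts. -/
theorem result : ∀ (V : Type u) [Fintype V] (G : SimpleGraph V) [DecidableRel G.Adj]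
    (f : V → ℕ) (k : ℕ), 1000000 ≤ G.maxDegree → G.maxDegree + 2 ≤ k →
    (∀ v, 1000000 * {w | f w = f v ∧ w ≠ v ∧ ¬ G.Adj v w}.ncard ≤ G.maxDegree) →
    (∀ v, 1000000 * {w | f w ≠ f v ∧ G.Adj v w}.ncard ≤ G.maxDegree) →
    ∀ H : G.Subgraph, IsDistThreeMatching H → EveryTotalColoringExtends H (Fin k) := by
  intro V _ G _ f k hD hk h1 h2 H hH
  exact helper46.fin_explicit main V G f k hD hk h1 h2 H hH

end Pool.Agent.Work.MP_db9399_nc_helper46.Final
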