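import Pool.Agent.Work.MP_db9399_nc.Base

/-!
# Block SPA: few vertices with outer edges
-/

set_option autoImplicit false

namespace Pool.Agent.Work.MP_db9399_nc.helper46

open Finset Classical
open Pool.Agent.Work.MP_db9399_all (nb)
open Pool.Agent.Work.MP_db9399_nc

universe u

/-- at most `2 |E|` vertices have a colour in `E` -/
theorem Spot.cE {V : Type u} [Fintype V] {G : SimpleGraph V} {d : ℕ} {c : V → ℕ}
    {F : V → Finset ℕ} {E : Finset ℕ} {hm : V → V} {γ : ℕ} (hS : Spot G d c F E hm γ) :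
    (univ.filter (fun v => c v ∈ E)).card ≤ 2 * E.card := by
  have h1 : univ.filter (fun v => c v ∈ E) ⊆
      E.biUnion (fun b => univ.filter (fun v => c v = b)) := by
    intro v hv
    rw [Finset.mem_filter] at hv
    rw [Finset.mem_biUnion]
    exact ⟨c v, hv.2, Finset.mem_filter.mpr ⟨Finset.mem_univ _, rfl⟩⟩
  refine (Finset.card_le_card h1).trans ?_
  rw [mul_comm]
  exact Finset.card_biUnion_le_card_mul _ _ _ (fun b _ => hS.ctwo b)

theorem stmt_SPA (hA : Stmt_ABSA.{u}) (hP : Stmt_SPOT.{u}) : Stmt_SPA.{u} := by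
  intro V _ G d y c F E hm γ hS hy hsz hodd hnum
  set B : Finset V := univ.filter (fun v => F v = ∅ ∧ c v ∉ E ∧ hm v = v) with hBdef
  have hB : E.card ≤ B.card := by
    have h1 : (univ : Finset V) ⊆ B ∪ (univ.filter (fun v => (F v).Nonempty) ∪
        (univ.filter (fun v => c v ∈ E) ∪ univ.filter (fun v => hm v ≠ v))) := by
      intro v _
      simp only [hBdef, Finset.mem_union, Finset.mem_filter, Finset.mem_univ, true_and]
      by_cases h1 : F v = ∅
      · by_cases h2 : c v ∈ E
        · tauto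
        · by_cases h3 : hm v = v
          · tauto
          · tauto
      · have := Finset.nonempty_iff_ne_empty.mpr h1
        tauto
    have h2 := Finset.card_le_card h1
    rw [Finset.card_univ] at h2
    have h3 := Finset.card_union_le B (univ.filter (fun v => (F v).Nonempty) ∪
        (univ.filter (fun v => c v ∈ E) ∪ univ.filter (fun v => hm v ≠ v)))
    have h4 := Finset.card_union_le (univ.filter (fun v => (F v).Nonempty))
      (univ.filter (fun v => c v ∈ E) ∪ univ.filter (fun v => hm v ≠ v))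
    have h5 := Finset.card_union_le (univ.filter (fun v => c v ∈ E))
      (univ.filter (fun v => hm v ≠ v))
    have h6 := hS.hcard
    have h7 := Spot.cE hS
    omega
  obtain ⟨W, hWB, hWc⟩ := Finset.exists_subset_card_eq hB
  have hW : ∀ v ∈ W, F v = ∅ ∧ c v ∉ E ∧ hm v = v := by
    intro v hv
    exact (Finset.mem_filter.mp (hWB hv)).2
  have hWd : ∀ b ∈ E, ∀ v ∈ W, v ∉ dirty c F b := by
    intro b hb v hv hd
    rw [mem_dirty] at hd
    obtain ⟨h1, h2, _⟩ := hW v hv
    rcases hd with hd | hd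
    · exact h2 (hd ▸ hb)
    · rw [h1] at hd; simp at hd
  obtain ⟨μ, K, hK, hμ, hinj, hKW, habs⟩ := hA G W E hodd hWc
  refine hP G d y c F E hm γ W μ K hS hy hsz hK ?_ ?_ ?_ habs ?_ ?_
  · intro b hb v hv
    exact ⟨hKW b hb v hv, hWd b hb v (hKW b hb v hv)⟩
  · intro v hv
    exact (hW v hv).2
  · rw [hWc]
  · intro b hb _
    exact ⟨(hμ b hb).1, hWd b hb _ (hμ b hb).1, (hμ b hb).2⟩
  · intro b hb b' hb' _ _ h
    exact hinj hb hb' h

end Pool.Agent.Work.MP_db9399_nc.helper46
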